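import Pool.Agent.Lib.MP_ab96c2_an.Domain

set_option autoImplicit false

open Complex Metric Real Topology Filter Set

namespace Pool.Agent.Lib.MP_ab96c2_an

/-- Distance to the complement. -/
noncomputable def dd (w : ℂ) : ℝ := infDist w Omᶜ

/-- The tip of the right slit. -/
noncomputable def cc : ℂ := 30 + I

@[simp] lemma cc_re : cc.re = 30 := by simp [cc]
@[simp] lemma cc_im : cc.im = 1 := by simp [cc]

/-- Half circle of radius one about the tip. -/
def Arc : Set ℂ := {z | ‖z - cc‖ = 1 ∧ 30 ≤ z.re}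

/-- The core curve. -/
def Gam : Set ℂ := ({z | z.im = 0 ∧ -30 ≤ z.re ∧ z.re ≤ 30} ∪ Arc) ∪ {z | -z ∈ Arc}

lemma neg_mem_Gam {z : ℂ} (h : z ∈ Gam) : -z ∈ Gam := by
  rcases h with (⟨h1, h2, h3⟩ | h) | h
  · left; left
    refine ⟨by simp [h1], ?_, ?_⟩ <;> simp <;> linarith
  · right; simpa using h
  · left; right; exact h

lemma norm_sq_cc (z : ℂ) : ‖z - cc‖ ^ 2 = (z.re - 30) ^ 2 + (z.im - 1) ^ 2 := by
  rw [Complex.sq_norm, Complex.normSq_apply]
  simp only [sub_re, sub_im, cc_re, cc_im]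
  ring

lemma disc_iff (z : ℂ) : (z.re - 30) ^ 2 + (z.im - 1) ^ 2 < 4 ↔ ‖z - cc‖ < 2 := by
  rw [← norm_sq_cc]
  constructor
  · intro h
    by_contra hc
    push Not at hc
    nlinarith
  · intro h
    nlinarith [norm_nonneg (z - cc)]

lemma slit_notMem {p : ℂ} (h1 : p.im = 1) (h2 : p.re ≤ 30) : p ∉ Om := by
  rw [mem_Om, in_of_one_le h1.ge]
  rintro ⟨-, h | h⟩
  · exact h h1
  · linarith

lemma cc_notMem : cc ∉ Om := slit_notMem cc_im cc_re.le

lemma circ_notMem {p : ℂ} (h1 : ‖p - cc‖ = 2) (h2 : 30 ≤ p.re ∨ 1 ≤ p.im) : p ∉ Om := by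
  intro h
  have h3 : PD p.re p.im := by
    rcases h2 with h2 | h2
    · rcases h with ⟨-, h, -⟩ | h | ⟨h, -⟩
      · linarith
      · exact h
      · nlinarith [sq_nonneg (-p.im - 1)]
    · exact (in_of_one_le h2).1 h
  have := (disc_iff p).1 h3.1
  linarith

lemma le_dd {z : ℂ} {r : ℝ} (h : ball z r ⊆ Om) : r ≤ dd z := by
  rw [dd, Metric.le_infDist ⟨cc, cc_notMem⟩]
  intro y hy
  by_contra hc
  push Not at hc
  exact hy (h (by rwa [mem_ball, dist_comm]))

lemma dd_le {z p : ℂ} (h : p ∉ Om) : dd z ≤ ‖z - p‖ := by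
  rw [← dist_eq_norm]
  exact infDist_le_dist_of_mem h

lemma dd_neg (z : ℂ) : dd (-z) = dd z := by
  have h : (fun w : ℂ => -w) '' Omᶜ = Omᶜ := by
    ext w
    constructor
    · rintro ⟨y, hy, rfl⟩
      exact fun h => hy (neg_mem_Om.1 h)
    · intro hw
      exact ⟨-w, fun h => hw (neg_mem_Om.1 h), neg_neg w⟩
  have := Metric.infDist_image (x := z) (t := Omᶜ) (Φ := fun w : ℂ => -w) isometry_neg
  rw [h] at this
  exact this

lemma isLocalMax_neg {z : ℂ} (h : IsLocalMax dd z) : IsLocalMax dd (-z) := by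
  have h1 : IsLocalMax dd ((fun w : ℂ => -w) (-z)) := by simpa using h
  have h2 := h1.comp_continuous (g := fun w : ℂ => -w) continuous_neg.continuousAt
  have : dd ∘ (fun w : ℂ => -w) = dd := by
    ext w; exact dd_neg w
  rwa [this] at h2

lemma notLocalMax_of {z g : ℂ}
    (h : ∀ t : ℝ, 0 < t → t ≤ 1 → dd z < dd (z + t * (g - z))) : ¬ IsLocalMax dd z := by
  intro hmax
  have hc : Continuous fun t : ℝ => z + t * (g - z) := by fun_prop
  have ht : Tendsto (fun t : ℝ => z + t * (g - z)) (𝓝[>] 0) (𝓝 z) := by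
    have := (hc.tendsto 0).mono_left (nhdsWithin_le_nhds (s := Ioi 0))
    simpa using this
  have h1 := ht.eventually hmax
  have h2 : ∀ᶠ t : ℝ in 𝓝[>] 0, t ∈ Ioc 0 1 := Ioc_mem_nhdsGT one_pos
  obtain ⟨t, ht1, ht2⟩ := (h1.and h2).exists
  exact absurd (h t ht2.1 ht2.2) (not_lt.2 ht1)

lemma ball_arc {g : ℂ} (h : g ∈ Arc) : ball g 1 ⊆ Om := by
  intro w hw
  rw [mem_ball, dist_eq_norm] at hw
  right; left
  constructor
  · rw [disc_iff]
    have := norm_add_le (w - g) (g - cc)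
    rw [sub_add_sub_cancel, h.1] at this
    linarith
  · by_contra hc
    push Not at hc
    have h1 := norm_sq_cc g
    rw [h.1] at h1
    have h2 : ‖w - g‖ ^ 2 < 1 := by nlinarith [norm_nonneg (w - g)]
    rw [Complex.sq_norm, Complex.normSq_apply] at h2
    simp only [sub_re, sub_im, hc.1] at h2
    nlinarith [h.2, hc.2, mul_nonneg (sub_nonneg.2 h.2) (sub_nonneg.2 hc.2),
      sq_nonneg (w.re - 30)]

lemma ball_Gam {g : ℂ} (h : g ∈ Gam) : ball g 1 ⊆ Om := by
  rcases h with (⟨h1, h2, h3⟩ | h) | h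
  · intro w hw
    rw [mem_ball, dist_eq_norm] at hw
    have h4 : ‖w - g‖ ^ 2 < 1 := by nlinarith [norm_nonneg (w - g)]
    rw [Complex.sq_norm, Complex.normSq_apply] at h4
    simp only [sub_re, sub_im, h1, sub_zero] at h4
    have a : -1 < w.im := by nlinarith [mul_self_nonneg (w.re - g.re)]
    have b : w.im < 1 := by nlinarith [mul_self_nonneg (w.re - g.re)]
    rw [mem_Om, in_of_mid a b]
    constructor
    · by_cases c : w.re ≤ 30
      · exact Or.inl c
      · right; nlinarith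
    · by_cases c : -30 ≤ w.re
      · exact Or.inl c
      · right; nlinarith
  · exact ball_arc h
  · intro w hw
    apply neg_mem_Om.1
    apply ball_arc h
    rwa [mem_ball, dist_neg_neg]

lemma tube {z g p : ℂ} (hg : g ∈ Gam) (hp : p ∉ Om) (h : ‖z - g‖ + ‖z - p‖ ≤ 1) :
    dd z ≤ 1 ∧ (z ∉ Gam → ¬ IsLocalMax dd z) := by
  have h1 := dd_le (z := z) hp
  refine ⟨by linarith [norm_nonneg (z - g)], fun hz => notLocalMax_of (g := g) fun t ht ht1 => ?_⟩
  have hzg : 0 < ‖z - g‖ := by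
    rw [norm_pos_iff, sub_ne_zero]
    rintro rfl
    exact hz hg
  have h2 := le_dd (ball_Gam hg)
  have h3 : dd g ≤ dd (z + t * (g - z)) + dist g (z + t * (g - z)) := infDist_le_infDist_add_dist
  have h4 : dist g (z + t * (g - z)) = (1 - t) * ‖z - g‖ := by
    rw [dist_eq_norm]
    have : g - (z + t * (g - z)) = ((1 - t : ℝ) : ℂ) * (-(z - g)) := by push_cast; ring
    rw [this, norm_mul, norm_neg, norm_real, Real.norm_eq_abs, abs_of_nonneg (by linarith)]
  rw [h4] at h3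
  nlinarith

lemma regionA {z : ℂ} (h1 : -30 ≤ z.re) (h2 : z.re ≤ 30) (h3 : 0 ≤ z.im) (h4 : z.im < 1) :
    dd z ≤ 1 ∧ (z ∉ Gam → ¬ IsLocalMax dd z) := by
  apply tube (g := (z.re : ℂ)) (p := (z.re : ℂ) + I)
  · left; left
    exact ⟨by simp, by simpa using h1, by simpa using h2⟩
  · exact slit_notMem (by simp) (by simpa using h2)
  · have e1 : z - (z.re : ℂ) = (z.im : ℂ) * I := by
      apply Complex.ext <;> simp
    have e2 : z - ((z.re : ℂ) + I) = ((z.im - 1 : ℝ) : ℂ) * I := by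
      apply Complex.ext <;> simp
    rw [e1, e2, norm_mul, norm_mul, norm_I, norm_real, norm_real, Real.norm_eq_abs,
      Real.norm_eq_abs, abs_of_nonneg h3, abs_of_nonpos (by linarith)]
    linarith

lemma radial {z : ℂ} (h : z ≠ cc) (s : ℝ) (hs : 0 ≤ s) :
    ‖(cc + ((s / ‖z - cc‖ : ℝ) : ℂ) * (z - cc)) - cc‖ = s ∧
    ‖z - (cc + ((s / ‖z - cc‖ : ℝ) : ℂ) * (z - cc))‖ = |‖z - cc‖ - s| ∧
    (30 ≤ z.re → 30 ≤ (cc + ((s / ‖z - cc‖ : ℝ) : ℂ) * (z - cc)).re) ∧
    (1 ≤ z.im → 1 ≤ (cc + ((s / ‖z - cc‖ : ℝ) : ℂ) * (z - cc)).im) := by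
  have hρ : 0 < ‖z - cc‖ := norm_pos_iff.2 (sub_ne_zero.2 h)
  have hq : 0 ≤ s / ‖z - cc‖ := by positivity
  refine ⟨?_, ?_, ?_, ?_⟩
  · rw [add_sub_cancel_left, norm_mul, norm_real, Real.norm_eq_abs, abs_of_nonneg hq]
    field_simp
  · have : z - (cc + ((s / ‖z - cc‖ : ℝ) : ℂ) * (z - cc))
        = ((1 - s / ‖z - cc‖ : ℝ) : ℂ) * (z - cc) := by push_cast; ring
    rw [this, norm_mul, norm_real, Real.norm_eq_abs]
    have e : ‖z - cc‖ - s = (1 - s / ‖z - cc‖) * ‖z - cc‖ := by field_simp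
    rw [e, abs_mul, abs_of_pos hρ]
  · intro hx
    simp only [add_re, cc_re, re_ofReal_mul, sub_re]
    have := mul_nonneg hq (sub_nonneg.2 hx)
    linarith
  · intro hy
    simp only [add_im, cc_im, im_ofReal_mul, sub_im]
    have := mul_nonneg hq (sub_nonneg.2 hy)
    linarith

lemma regionB {z : ℂ} (hz : z ∈ Om) (h1 : 30 ≤ z.re) :
    dd z ≤ 1 ∧ (z ∉ Gam → ¬ IsLocalMax dd z) := by
  have hne : z ≠ cc := by
    rintro rfl
    exact cc_notMem hz
  have hd : ‖z - cc‖ < 2 := by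
    rcases hz with ⟨-, h, -⟩ | h | ⟨h, -⟩
    · linarith
    · exact (disc_iff z).1 h.1
    · nlinarith [sq_nonneg (-z.im - 1)]
  obtain ⟨a1, a2, a3, -⟩ := radial hne 1 zero_le_one
  have hg : cc + ((1 / ‖z - cc‖ : ℝ) : ℂ) * (z - cc) ∈ Gam := Or.inl (Or.inr ⟨a1, a3 h1⟩)
  by_cases c : ‖z - cc‖ ≤ 1
  · apply tube hg cc_notMem
    rw [a2, abs_of_nonpos (by linarith)]
    linarith
  · obtain ⟨b1, b2, b3, -⟩ := radial hne 2 zero_le_two
    apply tube hg (circ_notMem b1 (Or.inl (b3 h1)))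
    rw [a2, b2, abs_of_nonneg (by linarith), abs_of_nonpos (by linarith)]
    linarith

lemma upper_ball (w : ℂ) : min (w.im - 1) (2 - ‖w - cc‖) ≤ dd w := by
  apply le_dd
  intro y hy
  rw [mem_ball, dist_eq_norm, lt_min_iff] at hy
  right; left
  constructor
  · rw [disc_iff]
    have := norm_add_le (y - w) (w - cc)
    rw [sub_add_sub_cancel] at this
    linarith [hy.2]
  · left
    have := abs_le.1 (Complex.abs_im_le_norm (y - w))
    rw [sub_im] at this
    intro h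
    linarith [this.1, hy.1]

lemma regionQ {z : ℂ} (hz : z ∈ Om) (h1 : z.re < 30) (h2 : 1 ≤ z.im) :
    dd z ≤ 1 ∧ (z ∉ Gam → ¬ IsLocalMax dd z) := by
  have hne : z ≠ cc := by
    rintro rfl
    exact cc_notMem hz
  have hP := (in_of_one_le h2).1 hz
  have hd : ‖z - cc‖ < 2 := (disc_iff z).1 hP.1
  have u1 : dd z ≤ z.im - 1 := by
    have := dd_le (z := z) (slit_notMem (p := (z.re : ℂ) + I) (by simp) (by simpa using h1.le))
    have e2 : z - ((z.re : ℂ) + I) = ((z.im - 1 : ℝ) : ℂ) * I := by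
      apply Complex.ext <;> simp
    rwa [e2, norm_mul, norm_I, norm_real, Real.norm_eq_abs, abs_of_nonneg (by linarith),
      mul_one] at this
  have u2 : dd z ≤ 2 - ‖z - cc‖ := by
    obtain ⟨b1, b2, -, b4⟩ := radial hne 2 zero_le_two
    have := dd_le (z := z) (circ_notMem b1 (Or.inr (b4 h2)))
    rw [b2, abs_of_nonpos (by linarith)] at this
    linarith
  have hlt : dd z < 1 := by
    by_contra hc
    push Not at hc
    have e := norm_sq_cc z
    have : ‖z - cc‖ ^ 2 ≤ 1 := by nlinarith [norm_nonneg (z - cc)]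
    nlinarith
  refine ⟨hlt.le, fun _ => notLocalMax_of (g := cc + I) fun t ht ht1 => ?_⟩
  refine lt_of_lt_of_le ?_ (upper_ball _)
  rw [lt_min_iff]
  constructor
  · simp only [add_im, im_ofReal_mul, sub_im, cc_im, I_im]
    nlinarith
  · have e : z + t * (cc + I - z) - cc = ((1 - t : ℝ) : ℂ) * (z - cc) + (t : ℂ) * I := by
      push_cast; ring
    have := norm_add_le (((1 - t : ℝ) : ℂ) * (z - cc)) ((t : ℂ) * I)
    rw [← e, norm_mul, norm_mul, norm_I, norm_real, norm_real, Real.norm_eq_abs, Real.norm_eq_abs,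
      abs_of_nonneg (by linarith), abs_of_pos ht] at this
    nlinarith

lemma half_cases {z : ℂ} (hz : z ∈ Om)
    (h : 30 ≤ z.re ∨ 1 ≤ z.im ∨ (-30 ≤ z.re ∧ 0 ≤ z.im)) :
    dd z ≤ 1 ∧ (z ∉ Gam → ¬ IsLocalMax dd z) := by
  by_cases a : 30 ≤ z.re
  · exact regionB hz a
  push Not at a
  by_cases b : 1 ≤ z.im
  · exact regionQ hz a b
  push Not at b
  rcases h with h | h | h
  · linarith
  · linarith
  · exact regionA h.1 a.le h.2 b

lemma all_cases {z : ℂ} (hz : z ∈ Om) : dd z ≤ 1 ∧ (z ∉ Gam → ¬ IsLocalMax dd z) := by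
  by_cases h : 30 ≤ z.re ∨ 1 ≤ z.im ∨ (-30 ≤ z.re ∧ 0 ≤ z.im)
  · exact half_cases hz h
  · have := half_cases (neg_mem_Om.2 hz) (by
      push Not at h
      simp only [neg_re, neg_im]
      by_cases c : -30 ≤ z.re
      · right; right
        exact ⟨by linarith [h.1], by linarith [h.2.2 c]⟩
      · left; linarith)
    rw [dd_neg] at this
    refine ⟨this.1, fun hg hm => this.2 (fun hg' => hg ?_) (isLocalMax_neg hm)⟩
    simpa using neg_mem_Gam hg'

lemma dd_le_one (z : ℂ) : dd z ≤ 1 := by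
  by_cases hz : z ∈ Om
  · exact (all_cases hz).1
  · have := dd_le (z := z) hz
    simp only [sub_self, norm_zero] at this
    linarith

lemma localMax_eq : {z : ℂ | z ∈ Om ∧ IsLocalMax dd z} = Gam := by
  ext z
  constructor
  · rintro ⟨hz, hm⟩
    by_contra hg
    exact (all_cases hz).2 hg hm
  · intro hg
    refine ⟨ball_Gam hg (mem_ball_self one_pos), Eventually.of_forall fun w => ?_⟩
    exact (dd_le_one w).trans (le_dd (ball_Gam hg))

lemma isPreconnected_Arc : IsPreconnected Arc := by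
  have : Arc = (fun t : ℝ => ((30 + √(1 - t ^ 2) : ℝ) : ℂ) + ((1 + t : ℝ) : ℂ) * I) ''
      Icc (-1) 1 := by
    ext z
    constructor
    · rintro ⟨h1, h2⟩
      have e := norm_sq_cc z
      rw [h1] at e
      refine ⟨z.im - 1, ⟨by nlinarith [sq_nonneg (z.re - 30)],
        by nlinarith [sq_nonneg (z.re - 30)]⟩, ?_⟩
      have : √(1 - (z.im - 1) ^ 2) = z.re - 30 := by
        rw [Real.sqrt_eq_iff_mul_self_eq (by nlinarith [sq_nonneg (z.re - 30)]) (by linarith)]
        nlinarith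
      apply Complex.ext
      · simp [this]
      · simp
    · rintro ⟨t, ⟨h1, h2⟩, rfl⟩
      have h3 : 0 ≤ 1 - t ^ 2 := by nlinarith
      constructor
      · have e := norm_sq_cc (((30 + √(1 - t ^ 2) : ℝ) : ℂ) + ((1 + t : ℝ) : ℂ) * I)
        simp only [add_re, ofReal_re, mul_re, I_re, mul_zero, ofReal_im, I_im, mul_one, sub_self,
          add_zero, add_sub_cancel_left, add_im, mul_im, zero_add] at e
        rw [Real.sq_sqrt h3] at e
        have h4 := norm_nonneg ((((30 + √(1 - t ^ 2) : ℝ) : ℂ) + ((1 + t : ℝ) : ℂ) * I) - cc)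
        simp only
        nlinarith
      · simp only [add_re, ofReal_re, mul_re, I_re, mul_zero, ofReal_im, I_im, mul_one, sub_self,
          add_zero]
        linarith [Real.sqrt_nonneg (1 - t ^ 2)]
  rw [this]
  exact isPreconnected_Icc.image _ (by fun_prop)

lemma thirty_mem_Arc : (30 : ℂ) ∈ Arc := by
  refine ⟨?_, by simp⟩
  simp [cc]

lemma isPreconnected_Gam : IsPreconnected Gam := by
  have hs : IsPreconnected {z : ℂ | z.im = 0 ∧ -30 ≤ z.re ∧ z.re ≤ 30} := by
    have : {z : ℂ | z.im = 0 ∧ -30 ≤ z.re ∧ z.re ≤ 30}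
        = (fun t : ℝ => (t : ℂ)) '' Icc (-30) 30 := by
      ext z
      constructor
      · rintro ⟨h1, h2, h3⟩
        exact ⟨z.re, ⟨h2, h3⟩, Complex.ext (by simp) (by simp [h1])⟩
      · rintro ⟨t, ⟨h1, h2⟩, rfl⟩
        exact ⟨by simp, by simpa using h1, by simpa using h2⟩
    rw [this]
    exact isPreconnected_Icc.image _ (by fun_prop)
  have hn : IsPreconnected {z : ℂ | -z ∈ Arc} := by
    have : {z : ℂ | -z ∈ Arc} = (fun w : ℂ => -w) '' Arc := by
      ext z
      constructor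
      · intro h
        exact ⟨-z, h, neg_neg z⟩
      · rintro ⟨w, hw, rfl⟩
        simpa using hw
    rw [this]
    exact isPreconnected_Arc.image _ (by fun_prop)
  refine IsPreconnected.union (-30 : ℂ) (Or.inl ⟨by simp, by simp, by norm_num⟩)
    (by simpa using thirty_mem_Arc) ?_ hn
  exact IsPreconnected.union (30 : ℂ) ⟨by simp, by norm_num, by simp⟩ thirty_mem_Arc hs
    isPreconnected_Arc

end Pool.Agent.Lib.MP_ab96c2_an
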