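import Mathlib

set_option autoImplicit false

open Complex Metric Real Topology Filter Set

namespace Pool.Agent.Lib.MP_ab96c2_an

/-- Disc of radius 2 about `(30,1)` slit along the ray `y = 1`, `x ≤ 30`. -/
def PD (x y : ℝ) : Prop := (x - 30) ^ 2 + (y - 1) ^ 2 < 4 ∧ (y ≠ 1 ∨ 30 < x)

/-- The S-shaped region in coordinates. -/
def In (x y : ℝ) : Prop := (-30 < x ∧ x < 30 ∧ -1 < y ∧ y < 1) ∨ PD x y ∨ PD (-x) (-y)

/-- The S-shaped domain. -/
def Om : Set ℂ := {z | In z.re z.im}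

lemma mem_Om {z : ℂ} : z ∈ Om ↔ In z.re z.im := Iff.rfl

lemma In.neg {x y : ℝ} (h : In x y) : In (-x) (-y) := by
  rcases h with ⟨h1, h2, h3, h4⟩ | h | h
  · left; refine ⟨?_, ?_, ?_, ?_⟩ <;> linarith
  · right; right; simpa using h
  · right; left; exact h

lemma neg_mem_Om {z : ℂ} : -z ∈ Om ↔ z ∈ Om := by
  constructor
  · intro h
    have := In.neg h
    rw [mem_Om]
    simpa using this
  · intro h
    exact In.neg h

lemma isOpen_lt' {f g : ℂ → ℝ} (hf : Continuous f) (hg : Continuous g) :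
    IsOpen {z | f z < g z} := isOpen_lt hf hg

lemma isOpen_PD : IsOpen {z : ℂ | PD z.re z.im} := by
  have h1 : IsOpen {z : ℂ | (z.re - 30) ^ 2 + (z.im - 1) ^ 2 < 4} :=
    isOpen_lt' (by fun_prop) (by fun_prop)
  have h2 : IsOpen {z : ℂ | z.im ≠ 1} :=
    isOpen_ne_fun (f := fun z : ℂ => z.im) (g := fun _ => 1) (by fun_prop) (by fun_prop)
  have h3 : IsOpen {z : ℂ | 30 < z.re} := isOpen_lt' (by fun_prop) (by fun_prop)
  exact h1.inter (h2.union h3)

lemma isOpen_Om : IsOpen Om := by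
  have h1 : IsOpen {z : ℂ | -30 < z.re} := isOpen_lt' (by fun_prop) (by fun_prop)
  have h2 : IsOpen {z : ℂ | z.re < 30} := isOpen_lt' (by fun_prop) (by fun_prop)
  have h3 : IsOpen {z : ℂ | -1 < z.im} := isOpen_lt' (by fun_prop) (by fun_prop)
  have h4 : IsOpen {z : ℂ | z.im < 1} := isOpen_lt' (by fun_prop) (by fun_prop)
  exact (h1.inter (h2.inter (h3.inter h4))).union
    (isOpen_PD.union (isOpen_PD.preimage continuous_neg))

lemma In.bound {x y : ℝ} (h : In x y) : -32 < x ∧ x < 32 ∧ -3 < y ∧ y < 3 := by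
  rcases h with ⟨h1, h2, h3, h4⟩ | ⟨h, -⟩ | ⟨h, -⟩
  · refine ⟨?_, ?_, ?_, ?_⟩ <;> linarith
  · refine ⟨?_, ?_, ?_, ?_⟩ <;> nlinarith [sq_nonneg (x - 30), sq_nonneg (y - 1)]
  · refine ⟨?_, ?_, ?_, ?_⟩ <;> nlinarith [sq_nonneg (-x - 30), sq_nonneg (-y - 1)]

lemma Om_subset_ball : Om ⊆ ball 0 35 := by
  intro z hz
  obtain ⟨h1, h2, h3, h4⟩ := In.bound hz
  rw [mem_ball, dist_zero_right]
  have := Complex.norm_le_abs_re_add_abs_im z
  have h5 : |z.re| < 32 := abs_lt.2 ⟨h1, h2⟩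
  have h6 : |z.im| < 3 := abs_lt.2 ⟨h3, h4⟩
  linarith

lemma in_of_one_le {x y : ℝ} (hy : 1 ≤ y) : In x y ↔ PD x y := by
  constructor
  · rintro (⟨-, -, -, h⟩ | h | ⟨h, -⟩)
    · linarith
    · exact h
    · nlinarith [sq_nonneg (-x - 30)]
  · exact fun h => Or.inr (Or.inl h)

lemma in_of_mid {x y : ℝ} (h1 : -1 < y) (h2 : y < 1) :
    In x y ↔ (x ≤ 30 ∨ (x - 30) ^ 2 + (y - 1) ^ 2 < 4) ∧
      (-30 ≤ x ∨ (x + 30) ^ 2 + (y + 1) ^ 2 < 4) := by
  constructor
  · rintro (⟨a, b, -, -⟩ | ⟨h, -⟩ | ⟨h, -⟩)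
    · exact ⟨Or.inl b.le, Or.inl a.le⟩
    · exact ⟨Or.inr h, Or.inl (by nlinarith [sq_nonneg (y - 1)])⟩
    · exact ⟨Or.inl (by nlinarith [sq_nonneg (-y - 1)]), Or.inr (by nlinarith)⟩
  · rintro ⟨a, b⟩
    by_cases c : 30 ≤ x
    · right; left
      refine ⟨?_, Or.inl h2.ne⟩
      rcases a with a | a
      · have : x = 30 := le_antisymm a c
        rw [this]; nlinarith
      · exact a
    · by_cases d : x ≤ -30
      · right; right
        refine ⟨?_, Or.inl (by linarith [h1] : -y < 1).ne⟩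
        rcases b with b | b
        · have : x = -30 := le_antisymm d b
          rw [this]; nlinarith
        · nlinarith
      · left
        exact ⟨by linarith, by linarith, h1, h2⟩

lemma sq_between {a x b c : ℝ} (h1 : a ≤ x) (h2 : x ≤ b) :
    (x - c) ^ 2 ≤ (a - c) ^ 2 ∨ (x - c) ^ 2 ≤ (b - c) ^ 2 := by
  by_cases h : x ≤ c
  · left; nlinarith
  · right; nlinarith

lemma conv_top {a x b y : ℝ} (hy : 1 ≤ y) (ha : In a y) (hb : In b y) (h1 : a ≤ x) (h2 : x ≤ b) :
    In x y := by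
  rw [in_of_one_le hy] at ha hb ⊢
  refine ⟨?_, ha.2.imp id fun h => by linarith⟩
  rcases sq_between (c := 30) h1 h2 with h | h
  · linarith [ha.1]
  · linarith [hb.1]

lemma In.conv {a x b y : ℝ} (ha : In a y) (hb : In b y) (h1 : a ≤ x) (h2 : x ≤ b) : In x y := by
  by_cases hy : 1 ≤ y
  · exact conv_top hy ha hb h1 h2
  by_cases hy' : y ≤ -1
  · have := (conv_top (x := -x) (by linarith) hb.neg ha.neg (by linarith) (by linarith)).neg
    simpa using this
  push Not at hy hy'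
  rw [in_of_mid hy' hy] at ha hb ⊢
  constructor
  · by_cases c : x ≤ 30
    · exact Or.inl c
    · right
      rcases hb.1 with h | h
      · linarith
      · nlinarith
  · by_cases c : -30 ≤ x
    · exact Or.inl c
    · right
      rcases ha.2 with h | h
      · linarith
      · nlinarith

lemma Om_ray (p : ℂ) (hp : p ∉ Om) :
    ∃ e : ℂ, ‖e‖ = 1 ∧ ∀ t : ℝ, 0 ≤ t → p - t * e ∉ Om := by
  by_contra hc
  push Not at hc
  obtain ⟨s, hs, h1⟩ := hc 1 (by simp)
  obtain ⟨t, ht, h2⟩ := hc (-1) (by simp)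
  apply hp
  rw [mem_Om] at h1 h2 ⊢
  simp only [mul_one, sub_re, ofReal_re, sub_im, ofReal_im, sub_zero, mul_neg, sub_neg_eq_add,
    add_re, add_im, add_zero] at h1 h2
  exact h1.conv h2 (by linarith) (by linarith)

/-- A continuous selection in the horizontal slices. -/
noncomputable def sel (y : ℝ) : ℝ := 31 * max (-1) (min 1 y) - (y - max (-1) (min 1 y)) / 2

lemma continuous_sel : Continuous sel := by
  unfold sel
  fun_prop

lemma in_sel {y : ℝ} (h1 : -3 < y) (h2 : y < 3) : In (sel y) y := by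
  unfold sel
  by_cases a : 1 ≤ y
  · rw [min_eq_left a, max_eq_right (by norm_num)]
    right; left
    exact ⟨by nlinarith, Or.inr (by linarith)⟩
  push Not at a
  rw [min_eq_right a.le]
  by_cases b : y ≤ -1
  · rw [max_eq_left b]
    right; right
    exact ⟨by nlinarith, Or.inr (by linarith)⟩
  push Not at b
  rw [max_eq_right b.le, in_of_mid b a]
  constructor
  · by_cases c : 31 * y - (y - y) / 2 ≤ 30
    · exact Or.inl c
    · right; nlinarith
  · by_cases c : -30 ≤ 31 * y - (y - y) / 2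
    · exact Or.inl c
    · right; nlinarith

lemma homot_mem {x y t : ℝ} (h : In x y) (h0 : 0 ≤ t) (h1 : t ≤ 1) :
    In (sel (min (2 - 2 * t) 1 * y) + max (1 - 2 * t) 0 * (x - sel y))
      (min (2 - 2 * t) 1 * y) := by
  obtain ⟨-, -, b1, b2⟩ := h.bound
  by_cases c : t ≤ 1 / 2
  · rw [min_eq_right (by linarith), max_eq_left (by linarith), one_mul]
    have hs := in_sel b1 b2
    by_cases d : x ≤ sel y
    · exact h.conv hs (by nlinarith) (by nlinarith)
    · exact hs.conv h (by nlinarith) (by nlinarith)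
  · rw [min_eq_left (by linarith), max_eq_right (by linarith), zero_mul, add_zero]
    apply in_sel <;> nlinarith

lemma contractible_Om : ContractibleSpace Om := by
  have h0 : ((sel 0 : ℝ) : ℂ) ∈ Om := by
    have := in_sel (y := 0) (by norm_num) (by norm_num)
    simpa [mem_Om] using this
  refine (contractible_iff_id_nullhomotopic Om).2 ⟨⟨_, h0⟩,
    ⟨⟨⟨fun p => ⟨((sel (min (2 - 2 * (p.1 : ℝ)) 1 * (p.2 : ℂ).im)
        + max (1 - 2 * (p.1 : ℝ)) 0 * ((p.2 : ℂ).re - sel (p.2 : ℂ).im) : ℝ) : ℂ)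
        + ((min (2 - 2 * (p.1 : ℝ)) 1 * (p.2 : ℂ).im : ℝ) : ℂ) * I, ?_⟩, ?_⟩, ?_, ?_⟩⟩⟩
  · have := homot_mem p.2.2 p.1.2.1 p.1.2.2
    rw [mem_Om]
    simpa only [add_re, ofReal_re, mul_re, I_re, mul_zero, ofReal_im, I_im, mul_one, sub_self,
      add_zero, add_im, mul_im, zero_add] using this
  · have := continuous_sel
    fun_prop
  · intro z
    apply Subtype.ext
    apply Complex.ext <;> simp
  · intro z
    apply Subtype.ext
    apply Complex.ext <;> norm_num

end Pool.Agent.Lib.MP_ab96c2_an
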