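import Pool.Agent.Lib.MP_ab96c2_an.Mean

set_option autoImplicit false

open Complex Metric Real Topology Filter Set

namespace Pool.Agent.Lib.MP_ab96c2_an

lemma hasFDerivAt_re {G : ℂ → ℂ} {G' w : ℂ} (hG : HasDerivAt G G' w) :
    ∃ L : ℂ →L[ℝ] ℝ, HasFDerivAt (fun y => (G y).re) L w ∧ ∀ h, L h = (G' * h).re := by
  refine ⟨_, reCLM.hasFDerivAt.comp w (hG.hasFDerivAt.restrictScalars ℝ), fun h => ?_⟩
  simp [mul_comm]

lemma fderiv_re {G : ℂ → ℂ} {G' w : ℂ} (hG : HasDerivAt G G' w) (h : ℂ) :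
    fderiv ℝ (fun y => (G y).re) w h = (G' * h).re := by
  obtain ⟨L, hL, hL'⟩ := hasFDerivAt_re hG
  rw [hL.fderiv, hL']

lemma fderiv_sol {F : ℂ → ℂ} {F' w : ℂ} (hF : HasDerivAt F F' w) (h : ℂ) :
    fderiv ℝ (fun y => (F y).re - ‖y‖ ^ 2 / 2) w h
      = (F' * h).re - (w.re * h.re + w.im * h.im) := by
  obtain ⟨L, hL, hL'⟩ := hasFDerivAt_re hF
  have h1 : HasFDerivAt (fun y : ℂ => y.re) reCLM w := reCLM.hasFDerivAt
  have h2 : HasFDerivAt (fun y : ℂ => y.im) imCLM w := imCLM.hasFDerivAt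
  have h3 := hL.sub (((h1.mul h1).add (h2.mul h2)).const_mul (1 / 2 : ℝ))
  have h4 : (fun y => (F y).re - ‖y‖ ^ 2 / 2) =
      ((fun y => (F y).re) - fun y : ℂ => 1 / 2 *
        (((fun y : ℂ => y.re) * fun y : ℂ => y.re) + (fun y : ℂ => y.im) * fun y : ℂ => y.im) y) := by
    ext y
    simp only [Complex.sq_norm, Complex.normSq_apply, Pi.sub_apply, Pi.add_apply, Pi.mul_apply]
    ring
  rw [h4, h3.fderiv]
  simp only [ContinuousLinearMap.sub_apply, hL', ContinuousLinearMap.smul_apply,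
    ContinuousLinearMap.add_apply, reCLM_apply, imCLM_apply, smul_eq_mul]
  ring

lemma Sol.contDiffOn {U : Set ℂ} {v : ℂ → ℝ} (h : Sol U v) : ContDiffOn ℝ 2 v U := by
  intro z hz
  obtain ⟨F, hF, hv⟩ := h z hz
  have h1 : ContDiffAt ℝ 2 (fun y => (F y).re - ‖y‖ ^ 2 / 2) z := by
    apply ContDiffAt.sub
    · exact reCLM.contDiff.contDiffAt.comp z (hF.contDiffAt.restrict_scalars ℝ)
    · exact ((contDiff_norm_sq ℝ).div_const 2).contDiffAt
  exact (h1.congr_of_eventuallyEq hv).contDiffWithinAt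

lemma Sol.laplacian {U : Set ℂ} {v : ℂ → ℝ} (h : Sol U v) {z : ℂ} (hz : z ∈ U) :
    fderiv ℝ (fun w => fderiv ℝ v w (1 : ℂ)) z (1 : ℂ)
      + fderiv ℝ (fun w => fderiv ℝ v w Complex.I) z Complex.I = -2 := by
  obtain ⟨F, hF, hv⟩ := h z hz
  have hd : ∀ᶠ w in 𝓝 z, ∀ h : ℂ, fderiv ℝ v w h
      = (deriv F w * h).re - (w.re * h.re + w.im * h.im) := by
    filter_upwards [hv.eventually_nhds, hF.eventually_analyticAt] with w hw hFw h
    have : v =ᶠ[𝓝 w] fun y => (F y).re - ‖y‖ ^ 2 / 2 := hw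
    rw [this.fderiv_eq, fderiv_sol hFw.differentiableAt.hasDerivAt]
  have hF' : HasDerivAt (deriv F) (deriv (deriv F) z) z := hF.deriv.differentiableAt.hasDerivAt
  have e1 : (fun w => fderiv ℝ v w (1 : ℂ)) =ᶠ[𝓝 z] fun w => (deriv F w - w).re := by
    filter_upwards [hd] with w hw
    rw [hw]; simp
  have e2 : (fun w => fderiv ℝ v w Complex.I) =ᶠ[𝓝 z] fun w => ((deriv F w + w) * I).re := by
    filter_upwards [hd] with w hw
    rw [hw]; simp; ring
  have d1 : HasDerivAt (fun w => deriv F w - w) (deriv (deriv F) z - 1) z :=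
    hF'.sub (hasDerivAt_id z)
  have d2 : HasDerivAt (fun w => (deriv F w + w) * I) ((deriv (deriv F) z + 1) * I) z :=
    (hF'.add (hasDerivAt_id z)).mul_const I
  rw [e1.fderiv_eq, e2.fderiv_eq, fderiv_re d1, fderiv_re d2]
  simp
  ring

end Pool.Agent.Lib.MP_ab96c2_an
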