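import Pool.Agent.Lib.MP_ab96c2_an.Lift

set_option autoImplicit false

open Complex Metric Real Topology Filter Set

namespace Pool.Agent.Lib.MP_ab96c2_an

/-- The Perron class. -/
def Cls (Ω : Set ℂ) : Set (ℂ → ℝ) :=
  {u | Continuous u ∧ (∀ z, z ∉ Ω → u z ≤ 0) ∧ SubT Ω u}

lemma zero_mem_cls (Ω : Set ℂ) : (fun _ => (0 : ℝ)) ∈ Cls Ω := by
  refine ⟨continuous_const, fun _ _ => le_rfl, fun c _ ε hε => ⟨ε / 2, by positivity,
    by linarith, ?_⟩⟩
  rw [circleAverage_const]
  positivity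

lemma avg_shift (u : ℂ → ℝ) (c t : ℂ) (r : ℝ) :
    circleAverage (fun z => u (z + t)) c r = circleAverage u (c + t) r := by
  unfold circleAverage circleMap
  congr 2
  ext θ
  ring_nf

theorem perron {Ω : Set ℂ} (hΩ : IsOpen Ω) {p₀ : ℂ} (hp₀ : p₀ ∉ Ω) {K : ℝ} (hK : 0 ≤ K)
    (hbar : ∀ u ∈ Cls Ω, ∀ z p, p ∉ Ω → u z ≤ K * √‖z - p‖) :
    ∃ v : ℂ → ℝ, Continuous v ∧ (∀ z, z ∉ Ω → v z = 0) ∧ (∀ z, 0 ≤ v z) ∧ Sol Ω v := by
  set v : ℂ → ℝ := fun z => sSup ((fun u : ℂ → ℝ => u z) '' Cls Ω) with hv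
  have hbdd : ∀ z, BddAbove ((fun u : ℂ → ℝ => u z) '' Cls Ω) := by
    intro z
    refine ⟨K * √‖z - p₀‖, ?_⟩
    rintro _ ⟨u, hu, rfl⟩
    exact hbar u hu z p₀ hp₀
  have hle : ∀ u ∈ Cls Ω, ∀ z, u z ≤ v z := fun u hu z => le_csSup (hbdd z) ⟨u, hu, rfl⟩
  have hsup : ∀ z a, (∀ u ∈ Cls Ω, u z ≤ a) → v z ≤ a := by
    intro z a h
    apply csSup_le (Set.Nonempty.image _ ⟨_, zero_mem_cls Ω⟩)
    rintro _ ⟨u, hu, rfl⟩
    exact h u hu
  have hv0 : ∀ z, 0 ≤ v z := fun z => hle _ (zero_mem_cls Ω) z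
  have hvout : ∀ z, z ∉ Ω → v z = 0 := fun z hz =>
    le_antisymm (hsup z 0 fun u hu => hu.2.1 z hz) (hv0 z)
  have htr : ∀ z t, v (z + t) ≤ v z + K * √‖t‖ := by
    intro z t
    apply hsup
    intro u hu
    have hu1 := hu.1
    have hmem : (fun y => max (u (y + t) - K * √‖t‖) 0) ∈ Cls Ω := by
      refine ⟨by fun_prop, ?_, ?_⟩
      · intro y hy
        have := hbar u hu (y + t) y hy
        rw [add_sub_cancel_left] at this
        exact max_le (by linarith) le_rfl
      · intro c _ ε hε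
        by_cases h : u (c + t) - K * √‖t‖ ≤ 0
        · refine ⟨ε / 2, by positivity, by linarith, ?_⟩
          have : 0 ≤ circleAverage (fun y => max (u (y + t) - K * √‖t‖) 0) c (ε / 2) :=
            circleAverage_nonneg_of_nonneg fun x _ => le_max_right _ _
          simp only [max_eq_right h]
          positivity
        · push Not at h
          have hKt : 0 ≤ K * √‖t‖ := by positivity
          have hct : c + t ∈ Ω := by
            by_contra hc
            have := hu.2.1 _ hc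
            linarith
          obtain ⟨r, hr, hrε, H⟩ := hu.2.2 _ hct ε hε
          refine ⟨r, hr, hrε, ?_⟩
          rw [← avg_shift] at H
          have h2 : circleAverage (fun y => u (y + t) - K * √‖t‖) c r
              ≤ circleAverage (fun y => max (u (y + t) - K * √‖t‖) 0) c r :=
            circleAverage_mono (cint (by fun_prop) c r) (cint (by fun_prop) c r)
              fun x _ => le_max_left _ _
          rw [circleAverage_fun_sub (cint (by fun_prop) c r) (cint (by fun_prop) c r),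
            circleAverage_const] at h2
          simp only [max_eq_left h.le]
          linarith
    have := hle _ hmem z
    have h3 := le_max_left (u (z + t) - K * √‖t‖) 0
    linarith
  have hvc : Continuous v := by
    rw [continuous_iff_continuousAt]
    intro z
    rw [ContinuousAt, tendsto_iff_dist_tendsto_zero]
    have hc : Continuous (fun y : ℂ => K * √‖y - z‖) := by fun_prop
    have h0 := hc.tendsto z
    simp only [sub_self, norm_zero, Real.sqrt_zero, mul_zero] at h0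
    refine squeeze_zero (fun _ => dist_nonneg) (fun y => ?_) h0
    rw [Real.dist_eq, abs_le]
    have h1 := htr z (y - z)
    have h2 := htr y (z - y)
    rw [add_sub_cancel] at h1 h2
    rw [norm_sub_rev] at h2
    constructor <;> linarith
  have hlift : ∀ c R, 0 < R → closedBall c R ⊆ Ω → ∀ p : ℂ → ℝ, Continuous p →
      (∀ z, z ∉ ball c R → p z = v z) → Sol (ball c R) p → ∀ z, v z ≤ p z := by
    intro c R _ hsub p hp hout hsol z
    by_cases hz : z ∈ ball c R
    · apply hsup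
      intro u hu
      refine comparison (isCompact_closedBall c R) isOpen_ball ball_subset_closedBall hu.1 hp
        (hu.2.2.mono (ball_subset_closedBall.trans hsub)) hsol.supT ?_ z
        (ball_subset_closedBall hz)
      intro y _ hy
      rw [hout y hy]
      exact hle u hu y
    · exact (hout z hz).ge
  have hmean : ∀ c R, 0 < R → closedBall c R ⊆ Ω → v c ≤ circleAverage v c R + R ^ 2 / 2 := by
    intro c R hR hsub
    obtain ⟨p, hp, hout, hsol, hpc⟩ := exists_lift hvc c hR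
    rw [← hpc]
    exact hlift c R hR hsub p hp hout hsol c
  refine ⟨v, hvc, hvout, hv0, ?_⟩
  intro c hc
  obtain ⟨R, hR, hsub⟩ := Metric.nhds_basis_closedBall.mem_iff.1 (hΩ.mem_nhds hc)
  obtain ⟨p, hp, hout, hsol, -⟩ := exists_lift hvc c hR
  have hvp := hlift c R hR hsub p hp hout hsol
  have hmem : p ∈ Cls Ω := by
    refine ⟨hp, ?_, ?_⟩
    · intro z hz
      rw [hout z (fun h => hz (hsub (ball_subset_closedBall h))), hvout z hz]
    · intro z hz ε hε
      by_cases hzb : z ∈ ball c R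
      · exact hsol.subT z hzb ε hε
      · obtain ⟨ρ, hρ, hsub'⟩ := Metric.nhds_basis_closedBall.mem_iff.1 (hΩ.mem_nhds hz)
        have hm : 0 < min ε ρ := lt_min hε hρ
        refine ⟨min ε ρ / 2, by positivity, by linarith [min_le_left ε ρ], ?_⟩
        have h1 := hmean z (min ε ρ / 2) (by positivity)
          ((closedBall_subset_closedBall (by linarith [min_le_right ε ρ])).trans hsub')
        have h2 : circleAverage v z (min ε ρ / 2) ≤ circleAverage p z (min ε ρ / 2) :=
          circleAverage_mono (cint hvc _ _) (cint hp _ _) fun x _ => hvp x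
        rw [hout z hzb]
        linarith
  have heq : ∀ z, v z = p z := fun z => le_antisymm (hvp z) (hle p hmem z)
  obtain ⟨F, hF, hFe⟩ := hsol c (mem_ball_self hR)
  exact ⟨F, hF, hFe.mono fun z hz => by rw [heq z, hz]⟩

/-- Real part of the principal square root. -/
noncomputable def sre (ζ : ℂ) : ℝ := √((‖ζ‖ + ζ.re) / 2)

lemma continuous_sre : Continuous sre := by
  unfold sre
  fun_prop

lemma sre_nonneg (ζ : ℂ) : 0 ≤ sre ζ := Real.sqrt_nonneg _

lemma sre_sq (ζ : ℂ) : sre ζ ^ 2 = (‖ζ‖ + ζ.re) / 2 := by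
  apply Real.sq_sqrt
  have := abs_le.1 (Complex.abs_re_le_norm ζ)
  linarith [this.1]

lemma sre_eq (ζ : ℂ) : (ζ ^ (2⁻¹ : ℂ)).re = sre ζ := Complex.cpow_inv_two_re ζ

lemma sre_le (ζ : ℂ) : sre ζ ≤ √‖ζ‖ := by
  apply Real.sqrt_le_sqrt
  have := abs_le.1 (Complex.abs_re_le_norm ζ)
  linarith [this.2]

lemma analyticAt_sq {ζ : ℂ} (h : ζ ∈ slitPlane) :
    AnalyticAt ℂ (fun z : ℂ => z ^ (2⁻¹ : ℂ)) ζ :=
  AnalyticAt.cpow analyticAt_id analyticAt_const h

lemma im_sq_le {ζ : ℂ} {D : ℝ} (hD : 1 ≤ D) (h : ‖ζ‖ ≤ D) : ζ.im ^ 2 ≤ 4 * D ^ 2 * sre ζ := by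
  have h1 := sre_sq ζ
  have h2 := sre_nonneg ζ
  have h3 := abs_le.1 (Complex.abs_re_le_norm ζ)
  have h4 : ‖ζ‖ ^ 2 = ζ.re ^ 2 + ζ.im ^ 2 := by
    rw [Complex.sq_norm, Complex.normSq_apply]; ring
  have h5 : ζ.im ^ 2 = 2 * sre ζ ^ 2 * (‖ζ‖ - ζ.re) := by
    rw [h1]; nlinarith
  have h6 : sre ζ ≤ D := by
    by_contra hc
    push Not at hc
    nlinarith [h3.2]
  have h7 : ‖ζ‖ - ζ.re ≤ 2 * D := by linarith [h3.1]
  have h8 : 0 ≤ ‖ζ‖ - ζ.re := by linarith [h3.2]
  rw [h5]
  calc 2 * sre ζ ^ 2 * (‖ζ‖ - ζ.re) = 2 * sre ζ * (sre ζ * (‖ζ‖ - ζ.re)) := by ring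
    _ ≤ 2 * sre ζ * (D * (2 * D)) := by gcongr
    _ = 4 * D ^ 2 * sre ζ := by ring

/-- Solvability of the torsion problem when every exterior point is the end of an exterior ray. -/
theorem exists_torsion {Ω : Set ℂ} (hΩ : IsOpen Ω) {R : ℝ} (hR : 1 ≤ R) (hb : Ω ⊆ ball 0 R)
    (hray : ∀ p, p ∉ Ω → ∃ e : ℂ, ‖e‖ = 1 ∧ ∀ t : ℝ, 0 ≤ t → p - t * e ∉ Ω) :
    ∃ v : ℂ → ℝ, Continuous v ∧ (∀ z, z ∉ Ω → v z = 0) ∧ (∀ z, 0 ≤ v z) ∧ Sol Ω v := by
  have hp₀ : ((R : ℝ) : ℂ) ∉ Ω := by
    intro h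
    have := hb h
    simp only [mem_ball, dist_zero_right, norm_real, Real.norm_eq_abs] at this
    linarith [le_abs_self R]
  refine perron hΩ hp₀ (K := 4 * (2 * R + 1) ^ 2) (by positivity) ?_
  intro u hu z p hp
  by_cases hz : z ∈ Ω
  swap
  · exact (hu.2.1 z hz).trans (by positivity)
  have hzK : z ∈ closedBall (0 : ℂ) R := ball_subset_closedBall (hb hz)
  by_cases hd : 1 ≤ ‖z - p‖
  · have h1 := comparison (isCompact_closedBall (0 : ℂ) R) hΩ (hb.trans ball_subset_closedBall)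
      hu.1 (w := fun z => R ^ 2 / 2 - ‖z‖ ^ 2 / 2) (by fun_prop) hu.2.2
      (Sol.supT fun c _ => ⟨fun _ => ((R ^ 2 / 2 : ℝ) : ℂ), analyticAt_const,
        Eventually.of_forall fun y => by rw [ofReal_re]⟩) (by
        intro y hy hy'
        have h2 : ‖y‖ ≤ R := by simpa using hy
        have h3 : ‖y‖ ^ 2 ≤ R ^ 2 := by gcongr
        have := hu.2.1 y hy'
        linarith) z hzK
    have h2 : 1 ≤ √‖z - p‖ := Real.one_le_sqrt.2 hd
    have h3 : 0 ≤ ‖z‖ ^ 2 := by positivity
    calc u z ≤ 4 * (2 * R + 1) ^ 2 * 1 := by nlinarith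
      _ ≤ _ := by gcongr
  · push Not at hd
    obtain ⟨e, he, hre⟩ := hray p hp
    have he0 : e ≠ 0 := by
      rintro rfl
      simp at he
    have hn : ∀ y : ℂ, ‖(y - p) / e‖ = ‖y - p‖ := fun y => by rw [norm_div, he, div_one]
    have hslit : ∀ y ∈ Ω, (y - p) / e ∈ slitPlane := by
      intro y hy
      by_contra hc
      rw [mem_slitPlane_iff] at hc
      push Not at hc
      apply hre (-((y - p) / e).re) (by linarith [hc.1])
      have h1 : (y - p) / e = (((y - p) / e).re : ℂ) := by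
        apply Complex.ext <;> simp [hc.2]
      have h2 : y = p + (y - p) / e * e := by field_simp; ring
      rw [h1] at h2
      convert hy using 1
      rw [ofReal_neg]
      linear_combination -h2
    have hpn : ‖p‖ ≤ R + 1 := by
      have h1 : ‖z‖ ≤ R := by simpa using hzK
      have h2 := norm_sub_norm_le p z
      rw [norm_sub_rev] at h2
      linarith
    have h1 := comparison (isCompact_closedBall (0 : ℂ) R) hΩ (hb.trans ball_subset_closedBall)
      hu.1 (w := fun y => 4 * (2 * R + 1) ^ 2 * sre ((y - p) / e) - ((y - p) / e).im ^ 2)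
      (by have := continuous_sre; fun_prop) hu.2.2 (Sol.supT (sol_of_shift p fun c hc => by
        refine ⟨fun y => ((4 * (2 * R + 1) ^ 2 : ℝ) : ℂ) * ((y - p) / e) ^ (2⁻¹ : ℂ)
          + ((y - p) / e) ^ 2 / 2, ?_, Eventually.of_forall fun y => ?_⟩
        · have h2 : AnalyticAt ℂ (fun y : ℂ => ((y - p) / e) ^ (2⁻¹ : ℂ)) c :=
            (analyticAt_sq (hslit c hc)).comp_of_eq (f := fun y : ℂ => (y - p) / e)
              (by fun_prop) rfl
          fun_prop
        · rw [← hn y, add_re, re_ofReal_mul, sre_eq, Complex.sq_norm, Complex.normSq_apply]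
          have : (((y - p) / e) ^ 2 / 2).re
              = (((y - p) / e).re ^ 2 - ((y - p) / e).im ^ 2) / 2 := by
            rw [div_ofNat_re, sq, mul_re]; ring
          rw [this]
          ring)) (by
        intro y hy hy'
        have h2 : ‖y‖ ≤ R := by simpa using hy
        have h3 : ‖(y - p) / e‖ ≤ 2 * R + 1 := by
          rw [hn]
          linarith [norm_sub_le y p]
        have h4 := im_sq_le (by linarith) h3
        have := hu.2.1 y hy'
        linarith) z hzK
    have h2 := sre_le ((z - p) / e)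
    rw [hn] at h2
    have h3 : 0 ≤ ((z - p) / e).im ^ 2 := by positivity
    calc u z ≤ 4 * (2 * R + 1) ^ 2 * sre ((z - p) / e) := by linarith
      _ ≤ _ := by gcongr

end Pool.Agent.Lib.MP_ab96c2_an
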