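import Pool.Agent.Lib.MP_ab96c2_an.Dist
import Pool.Agent.Lib.MP_ab96c2_an.Perron
import Pool.Agent.Lib.MP_ab96c2_an.Lapl

set_option autoImplicit false

open Complex Metric Real Topology Filter Set

namespace Pool.Agent.Lib.MP_ab96c2_an

/-- The properties of the torsion function of `Om` that are used below. -/
structure Tor (v : ℂ → ℝ) : Prop where
  cont : Continuous v
  out : ∀ z, z ∉ Om → v z = 0
  nonneg : ∀ z, 0 ≤ v z
  sol : Sol Om v

lemma exists_tor : ∃ v, Tor v := by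
  obtain ⟨v, h1, h2, h3, h4⟩ := exists_torsion isOpen_Om (R := 35) (by norm_num) Om_subset_ball
    Om_ray
  exact ⟨v, h1, h2, h3, h4⟩

lemma Tor.neg {v : ℂ → ℝ} (h : Tor v) : Tor (fun z => v (-z)) := by
  refine ⟨h.cont.comp continuous_neg, fun z hz => h.out _ fun hz' => hz (neg_mem_Om.1 hz'),
    fun z => h.nonneg _, fun c hc => ?_⟩
  obtain ⟨F, hF, hv⟩ := h.sol (-c) (neg_mem_Om.2 hc)
  refine ⟨fun z => F (-z), hF.comp_of_eq (f := fun z : ℂ => -z) (by fun_prop) rfl, ?_⟩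
  have := (continuous_neg.tendsto c).eventually hv
  filter_upwards [this] with z hz
  rw [hz, norm_neg]

lemma sol_quad (U : Set ℂ) (a b : ℝ) :
    Sol U (fun z => a + b * z.re ^ 2 - (1 + b) * z.im ^ 2) := by
  intro c _
  refine ⟨fun z => (a : ℂ) + ((1 / 2 + b : ℝ) : ℂ) * (z * z), by fun_prop,
    Eventually.of_forall fun z => ?_⟩
  simp only [add_re, ofReal_re, mul_re, Complex.sq_norm, Complex.normSq_apply,
    ofReal_im, zero_mul, sub_zero]
  ring

lemma Tor.le_nine {v : ℂ → ℝ} (h : Tor v) (z : ℂ) : v z ≤ 9 := by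
  by_cases hz : z ∈ Om
  swap
  · rw [h.out z hz]; norm_num
  have hsub : Om ⊆ Icc (-32 : ℝ) 32 ×ℂ Icc (-3 : ℝ) 3 := by
    intro w hw
    obtain ⟨h1, h2, h3, h4⟩ := In.bound hw
    exact ⟨⟨h1.le, h2.le⟩, ⟨h3.le, h4.le⟩⟩
  have := comparison (isCompact_Icc.reProdIm isCompact_Icc) isOpen_Om hsub h.cont
    (w := fun z => 9 + 0 * z.re ^ 2 - (1 + 0) * z.im ^ 2) (by fun_prop) h.sol.subT
    (sol_quad Om 9 0).supT (by
      intro w hw hw'
      rw [h.out w hw']
      nlinarith [hw.2.1, hw.2.2]) z (hsub hz)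
  nlinarith [sq_nonneg z.im]

lemma Tor.axis {v : ℂ → ℝ} (h : Tor v) {z : ℂ} (hz : z.re = 0) : v z ≤ 101 / 100 := by
  by_cases hO : z ∈ Om
  swap
  · rw [h.out z hO]; norm_num
  have hy : -1 < z.im ∧ z.im < 1 := by
    rcases hO with ⟨-, -, a, b⟩ | ⟨a, -⟩ | ⟨a, -⟩
    · exact ⟨a, b⟩
    · rw [hz] at a; nlinarith [sq_nonneg (z.im - 1)]
    · rw [hz] at a; nlinarith [sq_nonneg (-z.im - 1)]
  have hsub : Ioo (-30 : ℝ) 30 ×ℂ Ioo (-1 : ℝ) 1 ⊆ Om := fun w hw =>
    Or.inl ⟨hw.1.1, hw.1.2, hw.2.1, hw.2.2⟩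
  have := comparison (K := Icc (-30 : ℝ) 30 ×ℂ Icc (-1 : ℝ) 1)
    (isCompact_Icc.reProdIm isCompact_Icc) (isOpen_Ioo.reProdIm isOpen_Ioo)
    (fun w hw => ⟨Ioo_subset_Icc_self hw.1, Ioo_subset_Icc_self hw.2⟩) h.cont
    (w := fun z => 101 / 100 + 1 / 100 * z.re ^ 2 - (1 + 1 / 100) * z.im ^ 2) (by fun_prop)
    (h.sol.mono hsub).subT (sol_quad _ _ _).supT (by
      rintro w ⟨⟨a, b⟩, ⟨c, d⟩⟩ hw'
      have h9 := h.le_nine w
      have hy2 : w.im ^ 2 ≤ 1 := by nlinarith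
      rcases a.eq_or_lt with a | a
      · rw [← a]; nlinarith
      rcases b.eq_or_lt with b | b
      · rw [b]; nlinarith
      rcases c.eq_or_lt with c | c
      · have : w ∉ Om := fun hw => slit_notMem (p := -w) (by simp [← c]) (by simp; linarith)
          (neg_mem_Om.2 hw)
        rw [h.out w this]
        nlinarith [sq_nonneg w.re]
      rcases d.eq_or_lt with d | d
      · rw [h.out w (slit_notMem d b.le)]
        nlinarith [sq_nonneg w.re]
      exact absurd ⟨⟨a, b⟩, ⟨c, d⟩⟩ hw') z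
    ⟨⟨by rw [hz]; norm_num, by rw [hz]; norm_num⟩, ⟨hy.1.le, hy.2.le⟩⟩
  rw [hz] at this
  nlinarith [sq_nonneg z.im]

lemma re_mul_sqrt (ζ : ℂ) : (ζ * ζ ^ (2⁻¹ : ℂ)).re = sre ζ * (2 * ζ.re - ‖ζ‖) := by
  have h := Complex.cpow_ofNat_inv_pow ζ 2
  have h1 := sre_eq ζ
  have h2 := sre_sq ζ
  set w := ζ ^ (2⁻¹ : ℂ) with hw
  have h3 : ζ.re = w.re ^ 2 - w.im ^ 2 := by
    rw [← h, sq, mul_re]; ring
  have h4 : ζ.im = 2 * w.re * w.im := by
    rw [← h, sq, mul_im]; ring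
  rw [← h1] at h2 ⊢
  have h5 : ‖ζ‖ = w.re ^ 2 + w.im ^ 2 := by linarith
  rw [mul_re, h5, h3, h4]
  ring

/-- The explicit subsolution on the slit disc. -/
noncomputable def sub0 (z : ℂ) : ℝ :=
  sre ((z - cc) / 2) * (9 / 4 - 1 / 3 * (2 * ((z - cc) / 2).re - ‖(z - cc) / 2‖))
    - ‖z - cc‖ ^ 2 / 2

lemma continuous_sub0 : Continuous sub0 := by
  have := continuous_sre
  unfold sub0
  fun_prop

lemma sol_sub0 : Sol {z : ℂ | PD z.re z.im} sub0 := by
  apply sol_of_shift cc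
  intro c hc
  have hs : (c - cc) / 2 ∈ slitPlane := by
    rw [mem_slitPlane_iff]
    rcases hc.2 with h | h
    · right
      simp only [div_ofNat_im, sub_im, cc_im]
      intro h'
      apply h
      linarith
    · left
      simp only [div_ofNat_re, sub_re, cc_re]
      linarith
  have h2 : AnalyticAt ℂ (fun y : ℂ => ((y - cc) / 2) ^ (2⁻¹ : ℂ)) c :=
    (analyticAt_sq hs).comp_of_eq (f := fun y : ℂ => (y - cc) / 2) (by fun_prop) rfl
  refine ⟨fun y => ((9 / 4 : ℝ) : ℂ) * ((y - cc) / 2) ^ (2⁻¹ : ℂ)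
    - ((1 / 3 : ℝ) : ℂ) * ((y - cc) / 2 * ((y - cc) / 2) ^ (2⁻¹ : ℂ)), by fun_prop,
    Eventually.of_forall fun y => ?_⟩
  rw [sub_re, re_ofReal_mul, re_ofReal_mul, re_mul_sqrt, sre_eq, sub0]
  ring

lemma sub0_nonpos {z : ℂ} (h1 : z ∈ closedBall cc 2) (h2 : ¬ PD z.re z.im) : sub0 z ≤ 0 := by
  rw [mem_closedBall, dist_eq_norm] at h1
  rcases h1.eq_or_lt with h1 | h1
  · have hn : ‖(z - cc) / 2‖ = 1 := by
      rw [norm_div, h1]; simp
    have a := sre_sq ((z - cc) / 2)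
    have b := sre_nonneg ((z - cc) / 2)
    have c := sre_le ((z - cc) / 2)
    rw [hn] at a c
    rw [Real.sqrt_one] at c
    have d : ((z - cc) / 2).re = 2 * sre ((z - cc) / 2) ^ 2 - 1 := by linarith
    rw [sub0, hn, h1, d]
    set s := sre ((z - cc) / 2)
    nlinarith [mul_nonneg (sq_nonneg (s - 9 / 10)) (by linarith : 0 ≤ s + 9 / 5)]
  · have h3 : z.im = 1 ∧ z.re ≤ 30 := by
      by_contra hc
      apply h2
      refine ⟨(disc_iff z).2 h1, ?_⟩
      by_cases e : z.im = 1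
      · right
        by_contra f
        exact hc ⟨e, not_lt.1 f⟩
      · exact Or.inl e
    have e : (z - cc) / 2 = (((z.re - 30) / 2 : ℝ) : ℂ) := by
      apply Complex.ext
      · simp
      · simp [h3.1]
    have h4 : sre ((z - cc) / 2) = 0 := by
      rw [e, sre, norm_real, Real.norm_eq_abs, ofReal_re, abs_of_nonpos (by linarith [h3.2])]
      simp
    rw [sub0, h4]
    nlinarith [sq_nonneg ‖z - cc‖]

lemma sub0_val : 101 / 100 < sub0 (cc + ((25 / 32 : ℝ) : ℂ)) := by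
  have e : (cc + ((25 / 32 : ℝ) : ℂ) - cc) / 2 = ((25 / 64 : ℝ) : ℂ) := by
    push_cast; ring
  have e2 : sre ((25 / 64 : ℝ) : ℂ) = 5 / 8 := by
    rw [sre, norm_real, Real.norm_eq_abs, ofReal_re, abs_of_pos (by norm_num),
      Real.sqrt_eq_iff_mul_self_eq (by norm_num) (by norm_num)]
    norm_num
  rw [sub0, e, e2, add_sub_cancel_left, norm_real, norm_real, ofReal_re, Real.norm_eq_abs,
    Real.norm_eq_abs, abs_of_pos (by norm_num), abs_of_pos (by norm_num)]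
  norm_num

lemma Tor.turn {v : ℂ → ℝ} (h : Tor v) : 101 / 100 < v (cc + ((25 / 32 : ℝ) : ℂ)) := by
  refine sub0_val.trans_le ?_
  refine comparison (isCompact_closedBall cc 2) isOpen_PD ?_ continuous_sub0 h.cont
    sol_sub0.subT (h.sol.mono fun z hz => Or.inr (Or.inl hz)).supT ?_ _ ?_
  · intro z hz
    rw [mem_closedBall, dist_eq_norm]
    exact ((disc_iff z).1 hz.1).le
  · intro z h1 h2
    exact (sub0_nonpos h1 h2).trans (h.nonneg z)
  · rw [mem_closedBall, dist_eq_norm, add_sub_cancel_left, norm_real, Real.norm_eq_abs,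
      abs_of_pos (by norm_num)]
    norm_num

lemma Tor.exists_max {v : ℂ → ℝ} (h : Tor v) : ∃ z ∈ Om, 0 < z.re ∧ IsLocalMax v z := by
  have hK : IsCompact (closedBall (0 : ℂ) 35 ∩ {z : ℂ | 0 ≤ z.re}) :=
    (isCompact_closedBall 0 35).inter_right (isClosed_le continuous_const continuous_re)
  have hz1 : cc + ((25 / 32 : ℝ) : ℂ) ∈ closedBall (0 : ℂ) 35 ∩ {z : ℂ | 0 ≤ z.re} := by
    constructor
    · apply ball_subset_closedBall
      apply Om_subset_ball
      by_contra hc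
      have := h.turn
      rw [h.out _ hc] at this
      norm_num at this
    · simp only [mem_ofPred_eq, add_re, cc_re, ofReal_re]
      norm_num
  obtain ⟨z, hz, hmax⟩ := hK.exists_isMaxOn ⟨_, hz1⟩ h.cont.continuousOn
  have hv : 101 / 100 < v z := h.turn.trans_le (hmax hz1)
  have hO : z ∈ Om := by
    by_contra hc
    rw [h.out _ hc] at hv
    norm_num at hv
  have hre : 0 < z.re := by
    rcases (show 0 ≤ z.re from hz.2).eq_or_lt with e | e
    · linarith [h.axis e.symm]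
    · exact e
  refine ⟨z, hO, hre, hmax.isLocalMax ?_⟩
  apply mem_of_superset ((isOpen_Om.inter (isOpen_lt' continuous_const continuous_re)).mem_nhds
    ⟨hO, hre⟩)
  intro w hw
  have h2 : 0 < w.re := hw.2
  exact ⟨ball_subset_closedBall (Om_subset_ball hw.1), h2.le⟩

lemma Tor.two_crit {v : ℂ → ℝ} (h : Tor v) :
    1 < Set.encard {z : ℂ | z ∈ Om ∧ fderiv ℝ v z = 0} := by
  obtain ⟨a, ha, ha1, ha2⟩ := h.exists_max
  obtain ⟨b, hb, hb1, hb2⟩ := h.neg.exists_max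
  have hb3 : IsLocalMax v (-b) := by
    have h1 : IsLocalMax (fun z => v (-z)) ((fun w : ℂ => -w) (-b)) := by simpa using hb2
    have h2 := h1.comp_continuous (g := fun w : ℂ => -w) continuous_neg.continuousAt
    simpa [Function.comp_def] using h2
  rw [Set.one_lt_encard_iff]
  refine ⟨a, -b, ⟨ha, ha2.fderiv_eq_zero⟩, ⟨neg_mem_Om.2 hb, hb3.fderiv_eq_zero⟩, ?_⟩
  intro e
  rw [e, neg_re] at ha1
  linarith

lemma card_components :
    ENat.card (ConnectedComponents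
      {z : ℂ | z ∈ Om ∧ IsLocalMax (fun w : ℂ => Metric.infDist w Omᶜ) z}) ≤ 1 := by
  have h : {z : ℂ | z ∈ Om ∧ IsLocalMax (fun w : ℂ => Metric.infDist w Omᶜ) z} = Gam :=
    localMax_eq
  rw [h]
  have : PreconnectedSpace Gam := isPreconnected_iff_preconnectedSpace.1 isPreconnected_Gam
  exact ENat.card_le_one

end Pool.Agent.Lib.MP_ab96c2_an
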