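import Pool.Agent.Lib.MP_ab96c2_an.Mean

set_option autoImplicit false

open Complex Metric Real Topology Filter Set

namespace Pool.Agent.Lib.MP_ab96c2_an

lemma kernel_contOn {R : ℝ} {w : ℂ} (hw : w ∈ ball (0 : ℂ) R) :
    ContinuousOn (Complex.re ∘ herglotzRieszKernel 0 w) (sphere 0 R) := by
  rw [herglotzRieszKernel_fun_def]
  apply Complex.continuous_re.comp_continuousOn
  apply ContinuousOn.div (by fun_prop) (by fun_prop)
  intro z hz h0
  simp only [sub_zero, mem_ball, mem_sphere, dist_zero_right] at hz hw h0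
  have : z = w := sub_eq_zero.1 h0
  rw [this] at hz
  linarith

lemma kernel_nonneg {R : ℝ} {w z : ℂ} (hw : w ∈ ball (0 : ℂ) R) (hz : z ∈ sphere (0 : ℂ) R) :
    0 ≤ (Complex.re ∘ herglotzRieszKernel 0 w) z := by
  have h := le_re_herglotzRieszKernel hz hw
  refine le_trans ?_ h
  simp only [sub_zero, mem_ball, dist_zero_right] at hw ⊢
  apply div_nonneg
  · linarith
  · linarith [norm_nonneg w]

lemma kernel_mono {R : ℝ} (hR : 0 < R) {w : ℂ} (hw : w ∈ ball (0 : ℂ) R) {f g : ℂ → ℝ}
    (hf : Continuous f) (hg : Continuous g) (h : ∀ z ∈ sphere (0 : ℂ) R, f z ≤ g z) :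
    circleAverage ((Complex.re ∘ herglotzRieszKernel 0 w) • f) 0 R
      ≤ circleAverage ((Complex.re ∘ herglotzRieszKernel 0 w) • g) 0 R := by
  apply circleAverage_mono
  · exact ((kernel_contOn hw).smul hf.continuousOn).circleIntegrable hR.le
  · exact ((kernel_contOn hw).smul hg.continuousOn).circleIntegrable hR.le
  · intro z hz
    rw [abs_of_pos hR] at hz
    exact mul_le_mul_of_nonneg_left (h z hz) (kernel_nonneg hw hz)

lemma kernel_affine {R : ℝ} {w : ℂ} (hw : w ∈ ball (0 : ℂ) R) (a b : ℂ) :
    circleAverage ((Complex.re ∘ herglotzRieszKernel 0 w) • fun z => (a + b * z).re) 0 R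
      = (a + b * w).re := by
  apply InnerProductSpace.HarmonicOnNhd.circleAverage_re_herglotzRieszKernel_smul
    (f := fun z => (a + b * z).re) _ hw
  intro z _
  apply AnalyticAt.harmonicAt_re
  fun_prop

/-- Dirichlet problem on a disc centred at the origin. -/
theorem dirichlet_zero {h : ℂ → ℝ} (hh : Continuous h) {R : ℝ} (hR : 0 < R) :
    ∃ F : ℂ → ℂ, AnalyticOnNhd ℂ F (ball 0 R) ∧ (F 0).re = circleAverage h 0 R ∧
      ∀ ζ ∈ sphere (0 : ℂ) R, Tendsto (fun w => (F w).re) (𝓝[ball 0 R] ζ) (𝓝 (h ζ)) := by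
  have hI : CircleIntegrable h 0 R := cint hh 0 R
  have hI' : CircleIntegrable (fun z => (h z : ℂ)) 0 R :=
    (Complex.continuous_ofReal.comp hh).continuousOn.circleIntegrable'
  refine ⟨fun w => circleAverage (fun ζ => herglotzRieszKernel 0 w ζ • (h ζ : ℂ)) 0 R,
    analyticOnNhd_circleAverage_herglotzRieszKernel_smul hI', ?_, ?_⟩
  · rw [re_circleAverage_herglotzRieszKernel_smul hI (mem_ball_self hR)]
    apply circleAverage_congr_sphere
    intro z hz
    have hz0 : z ≠ 0 := by
      rintro rfl
      simp only [mem_sphere, dist_self] at hz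
      exact absurd hz.symm (abs_pos.2 hR.ne').ne'
    simp [herglotzRieszKernel_def, hz0]
  · intro ζ hζ
    rw [Metric.tendsto_nhds]
    intro ε hε
    obtain ⟨δ, hδ, hδh⟩ := Metric.continuousAt_iff.1 (hh.continuousAt (x := ζ)) (ε / 3)
      (by positivity)
    obtain ⟨M, hM⟩ := (isCompact_sphere (0 : ℂ) R).exists_bound_of_continuousOn hh.continuousOn
    have hM0 : 0 ≤ M := (norm_nonneg _).trans (hM ζ hζ)
    set C := 2 * M / δ ^ 2 with hC
    have hC0 : 0 ≤ C := by positivity
    have hζn : ‖ζ‖ = R := by simpa using hζ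
    have hq : ∀ z ∈ sphere (0 : ℂ) R,
        ‖z - ζ‖ ^ 2 = 2 * R ^ 2 - 2 * (z * (starRingEnd ℂ) ζ).re := by
      intro z hz
      have hzn : ‖z‖ = R := by simpa using hz
      have e1 : ‖z‖ ^ 2 = R ^ 2 := by rw [hzn]
      have e2 : ‖ζ‖ ^ 2 = R ^ 2 := by rw [hζn]
      simp only [Complex.sq_norm, Complex.normSq_apply, mul_re, sub_re, sub_im,
        conj_re, conj_im] at e1 e2 ⊢
      nlinarith
    have hk : ∀ z ∈ sphere (0 : ℂ) R, |h z - h ζ| ≤ ε / 3 + C * ‖z - ζ‖ ^ 2 := by
      intro z hz
      by_cases hd : dist z ζ < δ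
      · have := hδh hd
        rw [Real.dist_eq] at this
        have : 0 ≤ C * ‖z - ζ‖ ^ 2 := by positivity
        linarith
      · push Not at hd
        rw [dist_eq_norm] at hd
        have h1 : δ ^ 2 ≤ ‖z - ζ‖ ^ 2 := by gcongr
        have h2 : 2 * M ≤ C * ‖z - ζ‖ ^ 2 := by
          calc 2 * M = C * δ ^ 2 := by rw [hC]; field_simp
            _ ≤ _ := by gcongr
        have h3 := hM z hz
        have h4 := hM ζ hζ
        rw [Real.norm_eq_abs] at h3 h4
        have h5 := abs_sub (h z) (h ζ)
        linarith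
    have hlim : Tendsto (fun w : ℂ => C * (2 * R ^ 2 - 2 * (w * (starRingEnd ℂ) ζ).re))
        (𝓝[ball 0 R] ζ) (𝓝 0) := by
      have hc : Continuous (fun w : ℂ => C * (2 * R ^ 2 - 2 * (w * (starRingEnd ℂ) ζ).re)) := by
        fun_prop
      have h0 : C * (2 * R ^ 2 - 2 * (ζ * (starRingEnd ℂ) ζ).re) = 0 := by
        rw [← hq ζ hζ]; simp
      have := (hc.tendsto ζ).mono_left (nhdsWithin_le_nhds (s := ball (0 : ℂ) R))
      rwa [h0] at this
    filter_upwards [self_mem_nhdsWithin, (Metric.tendsto_nhds.1 hlim) (ε / 3) (by positivity)]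
      with w hw hw2
    rw [Real.dist_eq, sub_zero] at hw2
    rw [Real.dist_eq, re_circleAverage_herglotzRieszKernel_smul hI hw]
    have up := kernel_mono hR hw (f := h)
      (g := fun z => (((h ζ + ε / 3 + C * (2 * R ^ 2) : ℝ) : ℂ)
        + ((-2 * C : ℝ) * (starRingEnd ℂ) ζ) * z).re) hh (by fun_prop) (by
          intro z hz
          have h1 := (abs_le.1 (hk z hz)).2
          rw [hq z hz] at h1
          simp only [add_re, ofReal_re, mul_re, ofReal_im, conj_re, conj_im, mul_im] at h1 ⊢
          nlinarith)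
    have lo := kernel_mono hR hw (g := h)
      (f := fun z => (((h ζ - ε / 3 - C * (2 * R ^ 2) : ℝ) : ℂ)
        + ((2 * C : ℝ) * (starRingEnd ℂ) ζ) * z).re) (by fun_prop) hh (by
          intro z hz
          have h1 := (abs_le.1 (hk z hz)).1
          rw [hq z hz] at h1
          simp only [add_re, ofReal_re, mul_re, ofReal_im, conj_re, conj_im, mul_im] at h1 ⊢
          nlinarith)
    rw [kernel_affine hw] at up lo
    have h2 := abs_lt.1 hw2
    simp only [add_re, ofReal_re, mul_re, ofReal_im, conj_re, conj_im, mul_im] at up lo h2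
    rw [abs_lt]
    constructor <;> nlinarith [h2.1, h2.2]

/-- Replacement of a continuous function inside a disc by the solution with the same boundary
values. -/
theorem exists_lift {g : ℂ → ℝ} (hg : Continuous g) (c : ℂ) {R : ℝ} (hR : 0 < R) :
    ∃ p : ℂ → ℝ, Continuous p ∧ (∀ z, z ∉ ball c R → p z = g z) ∧ Sol (ball c R) p ∧
      p c = circleAverage g c R + R ^ 2 / 2 := by
  classical
  have hh : Continuous (fun z : ℂ => g (z + c) + R ^ 2 / 2) := by fun_prop
  obtain ⟨F, hF, hF0, hFb⟩ := dirichlet_zero hh hR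
  have hmem : ∀ z, z ∈ ball c R ↔ z - c ∈ ball (0 : ℂ) R := by
    intro z; simp [mem_ball, dist_eq_norm]
  set q : ℂ → ℝ := fun z => (F (z - c)).re - ‖z - c‖ ^ 2 / 2 with hq
  have hFa : ∀ z ∈ ball c R, AnalyticAt ℂ (fun z => F (z - c)) z := by
    intro z hz
    exact (hF (z - c) ((hmem z).1 hz)).comp_of_eq (f := fun z => z - c) (by fun_prop) rfl
  refine ⟨fun z => if z ∈ ball c R then q z else g z, ?_, ?_, ?_, ?_⟩
  · rw [continuous_iff_continuousAt]
    intro z
    by_cases hz : z ∈ ball c R
    · have h1 : ContinuousAt q z := by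
        have := Complex.continuous_re.continuousAt.comp (hFa z hz).continuousAt
        exact this.sub (by fun_prop)
      apply h1.congr
      filter_upwards [isOpen_ball.mem_nhds hz] with y hy
      simp only [hy, if_true]
    · rw [ContinuousAt, ← nhdsWithin_univ, ← union_compl_self (ball c R), nhdsWithin_union,
        tendsto_sup]
      simp only [hz, if_false]
      constructor
      · by_cases hz2 : z ∈ sphere c R
        · have hz3 : z - c ∈ sphere (0 : ℂ) R := by simpa [mem_sphere, dist_eq_norm] using hz2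
          have h1 := hFb (z - c) hz3
          have h2 : Tendsto (fun y => y - c) (𝓝[ball c R] z) (𝓝[ball 0 R] (z - c)) := by
            apply ContinuousWithinAt.tendsto_nhdsWithin (by fun_prop)
            intro y hy
            exact (hmem y).1 hy
          have h3 : Tendsto (fun y : ℂ => ‖y - c‖ ^ 2 / 2) (𝓝[ball c R] z) (𝓝 (R ^ 2 / 2)) := by
            have : ‖z - c‖ = R := by simpa using hz3
            rw [← this]
            apply Tendsto.mono_left _ nhdsWithin_le_nhds
            exact (by fun_prop : Continuous fun y : ℂ => ‖y - c‖ ^ 2 / 2).tendsto z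
          have h4 := (h1.comp h2).sub h3
          simp only [sub_add_cancel, add_sub_cancel_right] at h4
          apply h4.congr'
          filter_upwards [self_mem_nhdsWithin] with y hy
          simp only [hy, if_true, hq, Function.comp]
        · have : z ∉ closure (ball c R) := by
            rw [closure_ball c hR.ne', ← ball_union_sphere]
            rintro (h | h)
            · exact hz h
            · exact hz2 h
          rw [notMem_closure_iff_nhdsWithin_eq_bot.1 this]
          exact tendsto_bot
      · apply ((hg.tendsto z).mono_left nhdsWithin_le_nhds).congr'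
        filter_upwards [self_mem_nhdsWithin] with y hy
        simp only [mem_compl_iff] at hy
        simp only [hy, if_false]
  · intro z hz
    simp only [hz, if_false]
  · apply sol_of_shift c
    intro z hz
    refine ⟨fun z => F (z - c), hFa z hz, ?_⟩
    filter_upwards [isOpen_ball.mem_nhds hz] with y hy
    simp only [hy, if_true, hq]
  · simp only [mem_ball_self hR, if_true, hq, sub_self, norm_zero]
    rw [hF0, circleAverage_fun_add (cint (by fun_prop) 0 R) (cint (by fun_prop) 0 R),
      circleAverage_map_add_const, circleAverage_const]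
    ring

end Pool.Agent.Lib.MP_ab96c2_an
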