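import Mathlib

set_option autoImplicit false

open Complex Metric Real Topology Filter Set

namespace Pool.Agent.Lib.MP_ab96c2_an

/-- Weak local sub-mean property for the equation `Δ u = -2`. -/
def SubT (U : Set ℂ) (u : ℂ → ℝ) : Prop :=
  ∀ c ∈ U, ∀ ε > 0, ∃ r, 0 < r ∧ r < ε ∧ u c ≤ circleAverage u c r + r ^ 2 / 2

/-- Local super-mean property for the equation `Δ u = -2`. -/
def SupT (U : Set ℂ) (w : ℂ → ℝ) : Prop :=
  ∀ c ∈ U, ∃ ε > 0, ∀ r, 0 < r → r < ε → circleAverage w c r + r ^ 2 / 2 ≤ w c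

/-- Locally the real part of a holomorphic function minus `|z|^2/2`. -/
def Sol (U : Set ℂ) (v : ℂ → ℝ) : Prop :=
  ∀ c ∈ U, ∃ F : ℂ → ℂ, AnalyticAt ℂ F c ∧ ∀ᶠ z in 𝓝 c, v z = (F z).re - ‖z‖ ^ 2 / 2

lemma cint {f : ℂ → ℝ} (hf : Continuous f) (c : ℂ) (r : ℝ) : CircleIntegrable f c r :=
  hf.continuousOn.circleIntegrable'

lemma avg_re {F : ℂ → ℂ} {c : ℂ} {r : ℝ} (hr : 0 < r)
    (hF : AnalyticOnNhd ℂ F (closedBall c r)) :
    circleAverage (fun z => (F z).re) c r = (F c).re := by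
  have : InnerProductSpace.HarmonicOnNhd (fun z => (F z).re) (closedBall c |r|) := by
    rw [abs_of_pos hr]
    exact fun z hz => (hF z hz).harmonicAt_re
  exact this.circleAverage_eq

lemma avg_normSq (c : ℂ) {r : ℝ} (hr : 0 < r) :
    circleAverage (fun z => ‖z‖ ^ 2) c r = ‖c‖ ^ 2 + r ^ 2 := by
  have h1 : circleAverage (fun z => ‖z‖ ^ 2) c r
      = circleAverage (fun z => (((‖c‖ ^ 2 + r ^ 2 : ℝ) : ℂ) + 2 * (z - c) * (starRingEnd ℂ) c).re) c r := by
    apply circleAverage_congr_sphere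
    intro z hz
    rw [abs_of_pos hr, mem_sphere, dist_eq_norm] at hz
    have h2 : ‖z - c‖ ^ 2 = r ^ 2 := by rw [hz]
    rw [Complex.sq_norm, Complex.normSq_apply] at h2
    simp only [Complex.sq_norm, Complex.normSq_apply, add_re, ofReal_re, mul_re, sub_re, sub_im,
      conj_re, conj_im, mul_im, re_ofNat, im_ofNat] at h2 ⊢
    nlinarith
  rw [h1, avg_re hr]
  · simp only [sub_self, mul_zero, zero_mul, add_zero, ofReal_re]
  · intro z _
    fun_prop

lemma Sol.mean {U : Set ℂ} {v : ℂ → ℝ} (h : Sol U v) {c : ℂ} (hc : c ∈ U) :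
    ∃ ε > 0, ∀ r, 0 < r → r < ε → circleAverage v c r + r ^ 2 / 2 = v c := by
  obtain ⟨F, hF, hv⟩ := h c hc
  obtain ⟨ε, hε, hb⟩ := Metric.eventually_nhds_iff_ball.1 (hv.and hF.eventually_analyticAt)
  refine ⟨ε, hε, fun r hr hrε => ?_⟩
  have hsub : closedBall c r ⊆ ball c ε := closedBall_subset_ball hrε
  have hA : AnalyticOnNhd ℂ F (closedBall c r) := fun z hz => (hb z (hsub hz)).2
  have h1 : circleAverage v c r
      = circleAverage (fun z => (F z).re - (1 / 2 : ℝ) • ‖z‖ ^ 2) c r := by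
    apply circleAverage_congr_sphere
    intro z hz
    rw [abs_of_pos hr] at hz
    have := (hb z (hsub (sphere_subset_closedBall hz))).1
    simp only [this, smul_eq_mul]
    ring
  have hi1 : CircleIntegrable (fun z => (F z).re) c r := by
    apply ContinuousOn.circleIntegrable hr.le
    exact Complex.continuous_re.comp_continuousOn
      (hA.continuousOn.mono sphere_subset_closedBall)
  have hi2 : CircleIntegrable (fun z : ℂ => (1 / 2 : ℝ) • ‖z‖ ^ 2) c r :=
    cint (by fun_prop) c r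
  rw [h1, circleAverage_fun_sub hi1 hi2, circleAverage_fun_smul, avg_re hr hA, avg_normSq c hr,
    (hb c (mem_ball_self hε)).1, smul_eq_mul]
  ring

lemma Sol.subT {U : Set ℂ} {v : ℂ → ℝ} (h : Sol U v) : SubT U v := by
  intro c hc ε hε
  obtain ⟨δ, hδ, H⟩ := h.mean hc
  have hm : 0 < min ε δ := lt_min hε hδ
  refine ⟨min ε δ / 2, by positivity, ?_, ?_⟩
  · linarith [min_le_left ε δ]
  · exact (H _ (by positivity) (by linarith [min_le_right ε δ])).ge

lemma Sol.supT {U : Set ℂ} {v : ℂ → ℝ} (h : Sol U v) : SupT U v := by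
  intro c hc
  obtain ⟨δ, hδ, H⟩ := h.mean hc
  exact ⟨δ, hδ, fun r h1 h2 => (H r h1 h2).le⟩

lemma Sol.mono {U V : Set ℂ} {v : ℂ → ℝ} (h : Sol U v) (hVU : V ⊆ U) : Sol V v :=
  fun c hc => h c (hVU hc)

lemma SubT.mono {U V : Set ℂ} {v : ℂ → ℝ} (h : SubT U v) (hVU : V ⊆ U) : SubT V v :=
  fun c hc => h c (hVU hc)

/-- Shifted form of `Sol`. -/
lemma sol_of_shift {U : Set ℂ} {v : ℂ → ℝ} (a : ℂ)
    (h : ∀ c ∈ U, ∃ F : ℂ → ℂ, AnalyticAt ℂ F c ∧
      ∀ᶠ z in 𝓝 c, v z = (F z).re - ‖z - a‖ ^ 2 / 2) : Sol U v := by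
  intro c hc
  obtain ⟨F, hF, hv⟩ := h c hc
  refine ⟨fun z => F z + z * (starRingEnd ℂ) a - ((‖a‖ ^ 2 / 2 : ℝ) : ℂ), by fun_prop, ?_⟩
  filter_upwards [hv] with z hz
  rw [hz]
  simp only [Complex.sq_norm, Complex.normSq_apply, add_re, ofReal_re, mul_re, sub_re, sub_im,
      conj_re, conj_im]
  ring

/-- Comparison principle. -/
theorem comparison {K U : Set ℂ} (hK : IsCompact K) (hU : IsOpen U) (hUK : U ⊆ K)
    {u w : ℂ → ℝ} (hu : Continuous u) (hw : Continuous w) (hsub : SubT U u) (hsup : SupT U w)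
    (hb : ∀ z ∈ K, z ∉ U → u z ≤ w z) : ∀ z ∈ K, u z ≤ w z := by
  intro z hz
  obtain ⟨B, hB⟩ := hK.isBounded.exists_norm_le
  have hB0 : 0 ≤ B := (norm_nonneg z).trans (hB z hz)
  have key : ∀ η > 0, u z - w z ≤ η * B ^ 2 := by
    intro η hη
    set φ : ℂ → ℝ := fun z => u z - w z + η • ‖z‖ ^ 2 with hφ
    have hφc : Continuous φ := by fun_prop
    obtain ⟨c, hcK, hcmax⟩ := hK.exists_isMaxOn ⟨z, hz⟩ hφc.continuousOn
    have hcU : c ∉ U := by
      intro hcU
      obtain ⟨ε₁, hε₁, hball⟩ := Metric.isOpen_iff.1 hU c hcU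
      obtain ⟨ε₂, hε₂, H2⟩ := hsup c hcU
      obtain ⟨r, hr, hrε, H1⟩ := hsub c hcU (min ε₁ ε₂) (lt_min hε₁ hε₂)
      have H3 := H2 r hr (hrε.trans_le (min_le_right _ _))
      have H4 : circleAverage φ c r ≤ φ c := by
        apply circleAverage_mono_on_of_le_circle (cint hφc c r)
        intro x hx
        rw [abs_of_pos hr] at hx
        apply hcmax
        apply hUK
        apply hball
        exact closedBall_subset_ball (hrε.trans_le (min_le_left _ _)) (sphere_subset_closedBall hx)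
      have H5 : circleAverage φ c r
          = circleAverage u c r - circleAverage w c r + η * (‖c‖ ^ 2 + r ^ 2) := by
        rw [hφ, circleAverage_fun_add (cint (by fun_prop) c r) (cint (by fun_prop) c r),
          circleAverage_fun_sub (cint hu c r) (cint hw c r), circleAverage_fun_smul,
          avg_normSq c hr, smul_eq_mul]
      have H6 : 0 < η * r ^ 2 := by positivity
      simp only [hφ, smul_eq_mul] at H4 H5
      nlinarith
    have h1 : φ z ≤ φ c := hcmax hz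
    have h2 := hb c hcK hcU
    have h3 : ‖c‖ ^ 2 ≤ B ^ 2 := by
      have := hB c hcK
      gcongr
    have h4 : 0 ≤ η * ‖z‖ ^ 2 := by positivity
    simp only [hφ, smul_eq_mul] at h1
    nlinarith
  by_contra hcon
  push Not at hcon
  have hpos : 0 < u z - w z := by linarith
  have := key ((u z - w z) / (2 * (B ^ 2 + 1))) (by positivity)
  have h5 : (u z - w z) / (2 * (B ^ 2 + 1)) * B ^ 2 < u z - w z := by
    rw [div_mul_eq_mul_div, div_lt_iff₀ (by positivity)]
    nlinarith [sq_nonneg B]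
  linarith

end Pool.Agent.Lib.MP_ab96c2_an
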